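import Mathlib
import Pool.Agent.Helper25.E963Real

set_option autoImplicit false

/-!
Erdős' problem on dissociated subsets of sets of real numbers: the conjectured bound
`f n ≥ ⌊log₂ n⌋` holds for every `n` up to an error of `log₂ log₂ n`, and exactly for `n < 16`.
-/

namespace Pool.Agent.Results.MP_2d6ea7_co.LogLogLoss

/-- `f n` is the largest `k` such that every set of `n` real numbers has a dissociated subset with
at least `k` elements. -/
noncomputable def f (n : ℕ) : ℕ :=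
  sSup {k : ℕ | ∀ A : Finset ℝ, A.card = n → ∃ B ⊆ A, k ≤ B.card ∧ AddDissociated (B : Set ℝ)}

theorem le_f {n k : ℕ}
    (h : ∀ A : Finset ℝ, A.card = n → ∃ B ⊆ A, k ≤ B.card ∧ AddDissociated (B : Set ℝ)) :
    k ≤ f n := by
  have hmem : k ∈ {k : ℕ | ∀ A : Finset ℝ, A.card = n →
      ∃ B ⊆ A, k ≤ B.card ∧ AddDissociated (B : Set ℝ)} := h
  refine le_csSup ⟨n, ?_⟩ hmem
  intro m hm
  obtain ⟨A, hA⟩ := Infinite.exists_subset_card_eq ℝ n
  obtain ⟨B, hB, hmB, _⟩ := hm A hA
  exact hmB.trans ((Finset.card_le_card hB).trans hA.le)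

/-- (1) Every finite set `A` of reals has a dissociated subset `B` with
`|B| ≥ ⌊log₂ |A|⌋ - (⌊log₂ ⌊log₂ |A|⌋⌋ - 1)` (truncated subtraction inside the bracket).
(2) For sets with fewer than `16` elements the conjectured bound `⌊log₂ |A|⌋` holds exactly;
(3) with fewer than `512` elements it holds up to `1`; (4) with fewer than `2 ^ 18` elements it
holds up to `2`.  (5) In general it holds up to `μ` whenever `⌊log₂ |A|⌋ < 2 ^ (μ + 2) + μ`.
(6) The same in terms of `f`. -/
theorem result :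
    (∀ A : Finset ℝ, ∃ B ⊆ A,
      Nat.log 2 A.card ≤ B.card + (Nat.log 2 (Nat.log 2 A.card) - 1) ∧
        AddDissociated (B : Set ℝ)) ∧
    (∀ A : Finset ℝ, A.card < 16 → ∃ B ⊆ A,
      Nat.log 2 A.card ≤ B.card ∧ AddDissociated (B : Set ℝ)) ∧
    (∀ A : Finset ℝ, A.card < 512 → ∃ B ⊆ A,
      Nat.log 2 A.card ≤ B.card + 1 ∧ AddDissociated (B : Set ℝ)) ∧
    (∀ A : Finset ℝ, A.card < 2 ^ 18 → ∃ B ⊆ A,
      Nat.log 2 A.card ≤ B.card + 2 ∧ AddDissociated (B : Set ℝ)) ∧
    (∀ (μ : ℕ) (A : Finset ℝ), Nat.log 2 A.card < 2 ^ (μ + 2) + μ → ∃ B ⊆ A,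
      Nat.log 2 A.card ≤ B.card + μ ∧ AddDissociated (B : Set ℝ)) ∧
    (∀ n : ℕ, Nat.log 2 n ≤ f n + (Nat.log 2 (Nat.log 2 n) - 1)) ∧
    (∀ n : ℕ, n < 16 → Nat.log 2 n ≤ f n) := by
  have hlog : ∀ (m b : ℕ), m < 2 ^ b → b ≠ 0 → Nat.log 2 m < b := fun m b h hb =>
    Nat.log_lt_of_lt_pow' hb h
  refine ⟨H25.E963.lower_loglog, ?_, ?_, ?_, fun μ A h => H25.E963.lower_param μ A h, ?_, ?_⟩
  · intro A hA
    have h := hlog A.card 4 (by simpa using hA) (by norm_num)
    simpa using H25.E963.lower_param 0 A (by omega)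
  · intro A hA
    have h := hlog A.card 9 (by simpa using hA) (by norm_num)
    exact H25.E963.lower_param 1 A (by norm_num; omega)
  · intro A hA
    have h := hlog A.card 18 hA (by norm_num)
    exact H25.E963.lower_param 2 A (by norm_num; omega)
  · intro n
    have : Nat.log 2 n - (Nat.log 2 (Nat.log 2 n) - 1) ≤ f n := by
      apply le_f
      intro A hA
      obtain ⟨B, hB, h1, h2⟩ := H25.E963.lower_loglog A
      rw [hA] at h1
      exact ⟨B, hB, by omega, h2⟩
    omega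
  · intro n hn
    apply le_f
    intro A hA
    have h := hlog A.card 4 (by rw [hA]; simpa using hn) (by norm_num)
    obtain ⟨B, hB, h1, h2⟩ := H25.E963.lower_param 0 A (by omega)
    rw [hA] at h1
    exact ⟨B, hB, by simpa using h1, h2⟩

end Pool.Agent.Results.MP_2d6ea7_co.LogLogLoss
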